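import Mathlib

/-!
# A polarized relation for `κ × κ⁺` with `κ` rows in both colours

`core`: let `κ` be regular, `κ ≤ τ`, `κ ^ c ≤ τ` for `c < κ`, `A` a set of rows, `#A = κ`, `C` a linear order (the columns) in which sets
of size at most `τ` are bounded, `Λ` a well order with `μ ^ #Λ < κ` for all `μ < κ` and `Ξ` a well order with `#Ξ ≤ κ`.
Then for all `f : A → C → Prop` there are `κ` rows and a copy of `Ξ` in `C` on which `f` is false, or `κ` rows and a copy
of `Λ` on which `f` is true.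
-/

namespace Pool.Agent.Lib.H44P

open Cardinal Set

universe u

/-- Recursion with a choice at every step. -/
theorem rec_choice {I A : Type u} [LT I] [WellFoundedLT I] (P : (i : I) → ({j // j < i} → A) → A → Prop)
    (h : ∀ i s, ∃ x, P i s x) : ∃ a : I → A, ∀ i, P i (fun j => a j) (a i) := by
  choose F hF using h
  let a : I → A := (IsWellFounded.wf (r := ((· < ·) : I → I → Prop))).fix fun i rec => F i fun j => rec j.1 j.2
  have ha : ∀ i, a i = F i fun j => a j := fun i => WellFounded.fix_eq _ _ _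
  refine ⟨a, fun i => ?_⟩
  have h1 := hF i (fun j => a j)
  rwa [← ha i] at h1

/-- Strictly increasing sequences which stay above the bounds `b`. -/
theorem exists_seq {C Ξ : Type u} [LinearOrder C] [LinearOrder Ξ] [WellFoundedLT Ξ] (κ : Cardinal.{u}) (h0 : 1 ≤ κ)
    (hκ : ℵ₀ ≤ κ) (hC : ∀ S : Set C, #S ≤ κ → ∃ c, ∀ s ∈ S, s < c) (hΞ : #Ξ ≤ κ) (b : C → C) (z : C) :
    ∃ d : Ξ → C, (∀ x, z < d x) ∧ ∀ x y, x < y → b (d x) < d y := by
  obtain ⟨d, hd⟩ := rec_choice (I := Ξ) (A := C) (fun i s x => z < x ∧ ∀ j : {j // j < i}, b (s j) < x) (by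
    intro i s
    obtain ⟨c, hc⟩ := hC (insert z (range fun j : {j // j < i} => b (s j))) (by
      refine (mk_insert_le).trans ?_
      have h1 : #(range fun j : {j // j < i} => b (s j)) ≤ κ :=
        mk_range_le.trans ((mk_subtype_le _).trans hΞ)
      calc #(range fun j : {j // j < i} => b (s j)) + 1 ≤ κ + κ := add_le_add h1 h0
        _ = κ := add_eq_self hκ)
    refine ⟨c, hc _ (mem_insert _ _), fun j => hc _ (mem_insert_of_mem _ ⟨j, rfl⟩)⟩)
  exact ⟨d, fun x => (hd x).1, fun x y hxy => (hd y).2 ⟨x, hxy⟩⟩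

/-- **The relation.** -/
theorem core {A C Ξ Λ : Type u} [LinearOrder C] [LinearOrder Ξ] [WellFoundedLT Ξ] [LinearOrder Λ] [WellFoundedLT Λ]
    (κ τ : Cardinal.{u}) (hκ : κ.IsRegular) (hκτ : κ ≤ τ) (hA : #A = κ) (hC : ∀ S : Set C, #S ≤ τ → ∃ c, ∀ s ∈ S, s < c)
    (hpow : ∀ c < κ, κ ^ c ≤ τ) (hΞ : #Ξ ≤ κ) (hΛ : ∀ μ < κ, μ ^ #Λ < κ) (f : A → C → Prop) :
    (∃ H : Set A, #H = κ ∧ ∃ g : Ξ → C, StrictMono g ∧ ∀ a ∈ H, ∀ x, ¬f a (g x)) ∨
    (∃ H : Set A, #H = κ ∧ ∃ g : Λ → C, StrictMono g ∧ ∀ a ∈ H, ∀ x, f a (g x)) := by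
  classical
  rw [or_iff_not_imp_right]
  intro hno
  have hω : ℵ₀ ≤ κ := hκ.aleph0_le
  have h1κ : 1 ≤ κ := one_le_aleph0.trans hω
  have hωτ : ℵ₀ ≤ τ := hω.trans hκτ
  have h1τ : 1 ≤ τ := h1κ.trans hκτ
  have hle : ∀ S : Set A, #S ≤ κ := fun S => hA ▸ mk_set_le S
  have hsm : ∀ g : Λ → C, StrictMono g → #{a | ∀ x, f a (g x)} < κ := by
    intro g hg
    refine lt_of_le_of_ne (hle _) fun h => hno ⟨_, h, g, hg, fun a ha => ha⟩
  have hΛκ : #Λ < κ := by
    have h2 : (2 : Cardinal) ^ #Λ < κ := hΛ 2 ((natCast_lt_aleph0).trans_le hω)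
    exact (cantor _).trans h2
  have hne : Nonempty C := by
    obtain ⟨c, -⟩ := hC ∅ (by simp)
    exact ⟨c⟩
  -- step 1
  have hbad : ∀ X : Set C, #X < κ → #{a | ∃ g : Λ → C, StrictMono g ∧ (∀ x, g x ∈ X) ∧ ∀ x, f a (g x)} < κ := by
    intro X hX
    have h1 : {a | ∃ g : Λ → C, StrictMono g ∧ (∀ x, g x ∈ X) ∧ ∀ x, f a (g x)} ⊆
        ⋃ g : Λ → X, {a | StrictMono (fun x => (g x : C)) ∧ ∀ x, f a (g x)} := by
      rintro a ⟨g, hg, hgX, hfa⟩
      exact mem_iUnion.2 ⟨fun x => ⟨g x, hgX x⟩, hg, hfa⟩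
    refine (mk_le_mk_of_subset h1).trans_lt ?_
    rw [card_iUnion_lt_iff_forall_of_isRegular hκ (by rw [mk_arrow, lift_id, lift_id]; exact hΛ _ hX)]
    intro g
    by_cases hg : StrictMono (fun x => (g x : C))
    · refine (mk_le_mk_of_subset ?_).trans_lt (hsm _ hg)
      exact fun a ha => ha.2
    · have : {a | StrictMono (fun x => (g x : C)) ∧ ∀ x, f a (g x)} = ∅ := by
        ext a
        simp [hg]
      rw [this, mk_eq_zero]
      exact lt_of_lt_of_le zero_lt_one h1κ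
  -- step 2
  have hcov : ∃ z : C, ∀ X : Set C, #X < κ → (∀ x ∈ X, z < x) → #{a | ∀ x ∈ X, ¬f a x} = κ := by
    by_contra hcon
    push Not at hcon
    choose X hX hXz hXk using hcon
    have hXk' : ∀ z, #{a | ∀ x ∈ X z, ¬f a x} < κ := fun z => lt_of_le_of_ne (hle _) (hXk z)
    have hb : ∀ z, ∃ c, ∀ x ∈ X z, x < c := fun z => hC _ ((hX z).le.trans hκτ)
    choose b hb using hb
    obtain ⟨z0⟩ := hne
    obtain ⟨d, -, hd⟩ := exists_seq (Ξ := Λ) τ h1τ hωτ hC (hΛκ.le.trans hκτ) b z0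
    have hU : #(⋃ x : Λ, X (d x)) < κ := by
      rw [card_iUnion_lt_iff_forall_of_isRegular hκ hΛκ]
      exact fun x => hX _
    have hS : #(⋃ x : Λ, {a | ∀ c ∈ X (d x), ¬f a c} : Set A) < κ := by
      rw [card_iUnion_lt_iff_forall_of_isRegular hκ hΛκ]
      exact fun x => hXk' _
    have hall : (univ : Set A) ⊆ (⋃ x : Λ, {a | ∀ c ∈ X (d x), ¬f a c}) ∪
        {a | ∃ g : Λ → C, StrictMono g ∧ (∀ x, g x ∈ ⋃ x : Λ, X (d x)) ∧ ∀ x, f a (g x)} := by
      intro a _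
      by_cases ha : a ∈ ⋃ x : Λ, {a | ∀ c ∈ X (d x), ¬f a c}
      · exact Or.inl ha
      right
      simp only [mem_iUnion, mem_ofPred_eq, not_exists, not_forall, not_not] at ha
      choose g hg1 hg2 using ha
      refine ⟨g, ?_, fun x => mem_iUnion.2 ⟨x, hg1 x⟩, hg2⟩
      intro x y hxy
      calc g x < b (d x) := hb _ _ (hg1 x)
        _ < d y := hd x y hxy
        _ < g y := hXz _ _ (hg1 y)
    have h1 : #(univ : Set A) < κ := by
      refine (mk_le_mk_of_subset hall).trans_lt ?_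
      refine (mk_union_le _ _).trans_lt ?_
      exact add_lt_of_lt hω hS (hbad _ hU)
    rw [mk_univ, hA] at h1
    exact lt_irrefl _ h1
  obtain ⟨z, hz⟩ := hcov
  -- step 3
  let I : Type u := κ.ord.ToType
  have hI : #I = κ := by
    change #κ.ord.ToType = κ
    rw [mk_toType, card_ord]
  have hIlt : ∀ i : I, #{j // j ≤ i} < κ := by
    intro i
    have h1 : #(Set.Iio i) < κ := by
      have h := mk_Iio_lt i (by rw [hI]; exact (Ordinal.type_toType κ.ord).symm)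
      rwa [hI] at h
    have h2 : {j | j ≤ i} ⊆ insert i (Set.Iio i) := by
      intro j (hj : j ≤ i)
      rcases lt_or_eq_of_le hj with h | h
      · exact Or.inr h
      · exact Or.inl h
    change #({j | j ≤ i} : Set I) < κ
    refine (mk_le_mk_of_subset h2).trans_lt ((mk_insert_le).trans_lt ?_)
    exact add_lt_of_lt hω h1 (one_lt_aleph0.trans_le hω)
  let W : Type u := Σ i : I, ({j // j ≤ i} → A)
  have hW : #W ≤ τ := by
    change #(Σ i : I, ({j // j ≤ i} → A)) ≤ τ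
    rw [mk_sigma]
    have h1 : ∀ i : I, #({j // j ≤ i} → A) ≤ τ := by
      intro i
      rw [mk_arrow, lift_id, lift_id, hA]
      exact hpow _ (hIlt i)
    calc Cardinal.sum (fun i : I => #({j // j ≤ i} → A)) ≤ Cardinal.sum (fun _ : I => τ) := sum_le_sum _ _ h1
      _ = κ * τ := by rw [sum_const, lift_id, lift_id, hI]
      _ ≤ τ * τ := mul_le_mul_left hκτ τ
      _ = τ := mul_eq_self hωτ
  let E : W → Set C := fun w => {c | ∀ j, ¬f (w.2 j) c}
  have hstar : ∃ c : C, z < c ∧ ∀ w : W, (∀ j, ¬f (w.2 j) c) → ∀ c', ∃ e ∈ E w, c' < e := by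
    have h1 : ∀ w : W, ∃ c : C, (∀ c', ∃ e ∈ E w, c' < e) ∨ ∀ e ∈ E w, e < c := by
      intro w
      by_cases hw : ∀ c', ∃ e ∈ E w, c' < e
      · exact ⟨z, Or.inl hw⟩
      · push Not at hw
        obtain ⟨c', hc'⟩ := hw
        obtain ⟨c, hc⟩ := hC {c'} (by rw [mk_singleton]; exact h1τ)
        exact ⟨c, Or.inr fun e he => (hc' e he).trans_lt (hc c' rfl)⟩
    choose c hc using h1
    obtain ⟨c0, hc0⟩ := hC (insert z (range c)) (by
      refine (mk_insert_le).trans ?_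
      calc #(range c) + 1 ≤ τ + τ := add_le_add (mk_range_le.trans hW) h1τ
        _ = τ := add_eq_self hωτ)
    refine ⟨c0, hc0 _ (mem_insert _ _), fun w hw => ?_⟩
    rcases hc w with h | h
    · exact h
    · exact absurd ((h c0 hw).trans (hc0 _ (mem_insert_of_mem _ ⟨w, rfl⟩))) (lt_irrefl _)
  obtain ⟨cs, hzcs, hcs⟩ := hstar
  -- the chosen elements
  have he : ∀ (w : W) (c : C), ∃ e : C, c < e ∧ ((∀ c', ∃ e ∈ E w, c' < e) → e ∈ E w) := by
    intro w c
    by_cases hw : ∀ c', ∃ e ∈ E w, c' < e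
    · obtain ⟨e, he1, he2⟩ := hw c
      exact ⟨e, he2, fun _ => he1⟩
    · obtain ⟨e, he⟩ := hC {c} (by rw [mk_singleton]; exact h1τ)
      exact ⟨e, he c rfl, fun h => absurd h hw⟩
  choose e he1 he2 using he
  have hb : ∀ c, ∃ c', ∀ w, e w c < c' := by
    intro c
    obtain ⟨c', hc'⟩ := hC (range fun w => e w c) (mk_range_le.trans hW)
    exact ⟨c', fun w => hc' _ ⟨w, rfl⟩⟩
  choose b hb using hb
  obtain ⟨d, hd1, hd2⟩ := exists_seq (Ξ := Ξ) τ h1τ hωτ hC (hΞ.trans hκτ) b z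
  rcases isEmpty_or_nonempty Ξ with hΞ0 | hΞ0
  · exact ⟨univ, by rw [mk_univ, hA], fun x => isEmptyElim x, fun x => isEmptyElim x, fun a _ x => isEmptyElim x⟩
  obtain ⟨ι⟩ : Nonempty (Ξ ↪ I) := by
    rw [← hI] at hΞ
    exact (Cardinal.le_def _ _).1 hΞ
  let p : I → Ξ := Function.invFun ι
  -- step 4
  obtain ⟨a, ha⟩ := rec_choice (I := I) (A := A)
    (fun i s x => ¬f x cs ∧ (∀ j, x ≠ s j) ∧
      ∀ j : {j // j < i}, ¬f x (e ⟨j.1, fun k => s ⟨k.1, k.2.trans_lt j.2⟩⟩ (d (p j.1)))) (by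
    intro i s
    have hi : #{j // j < i} < κ := by
      refine lt_of_le_of_lt ?_ (hIlt i)
      exact mk_subtype_le_of_subset (fun j (hj : j < i) => hj.le)
    have h1 : #(insert cs (range fun j : {j // j < i} => e ⟨j.1, fun k => s ⟨k.1, k.2.trans_lt j.2⟩⟩ (d (p j.1))) : Set C) < κ := by
      refine (mk_insert_le).trans_lt ?_
      exact add_lt_of_lt hω (mk_range_le.trans_lt hi) (one_lt_aleph0.trans_le hω)
    have h2 := hz _ h1 (by
      intro x hx
      rcases hx with rfl | ⟨j, rfl⟩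
      · exact hzcs
      · exact (hd1 _).trans (he1 _ _))
    have h3 : #(range s) < κ := mk_range_le.trans_lt hi
    have h4 : ∃ x, x ∈ {a | ∀ x ∈ insert cs (range fun j : {j // j < i} => e ⟨j.1, fun k => s ⟨k.1, k.2.trans_lt j.2⟩⟩ (d (p j.1))),
        ¬f a x} ∧ x ∉ range s := by
      by_contra hcon
      push Not at hcon
      have := (mk_le_mk_of_subset (fun x hx => hcon x hx)).trans_lt h3
      rw [h2] at this
      exact lt_irrefl _ this
    obtain ⟨x, hx1, hx2⟩ := h4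
    refine ⟨x, hx1 _ (mem_insert _ _), fun j h => hx2 ⟨j, h.symm⟩, fun j => hx1 _ (mem_insert_of_mem _ ⟨j, rfl⟩)⟩)
  let w : I → W := fun j => ⟨j, fun k => a k.1⟩
  have hwE : ∀ j, e (w j) (d (p j)) ∈ E (w j) := by
    intro j
    refine he2 _ _ (hcs _ fun k => (ha k.1).1)
  have hmain : ∀ i j, ¬f (a i) (e (w j) (d (p j))) := by
    intro i j
    rcases lt_or_ge j i with h | h
    · exact (ha i).2.2 ⟨j, h⟩
    · exact hwE j ⟨i, h⟩
  have hinj : Function.Injective a := by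
    intro i j hij
    rcases lt_trichotomy i j with h | h | h
    · exact absurd hij.symm ((ha j).2.1 ⟨i, h⟩)
    · exact h
    · exact absurd hij ((ha i).2.1 ⟨j, h⟩)
  refine ⟨range a, by rw [mk_range_eq _ hinj, hI], fun x => e (w (ι x)) (d x), ?_, ?_⟩
  · intro x y hxy
    calc e (w (ι x)) (d x) < b (d x) := hb _ _
      _ < d y := hd2 x y hxy
      _ < e (w (ι y)) (d y) := he1 _ _
  · rintro _ ⟨i, rfl⟩ x
    have h := hmain i (ι x)
    have hp : p (ι x) = x := Function.leftInverse_invFun ι.injective x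
    rwa [hp] at h

end Pool.Agent.Lib.H44P
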