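import Pool.Agent.Lib.H44P.Core

/-!
# More colours, ordinals
-/

namespace Pool.Agent.Lib.H44P

open Cardinal Set

universe u

/-- A well order `Γ` (a product) such that for every colouring with `k` colours some colour `i` contains a copy of `Λ i`. -/
theorem pig (κ : Cardinal.{u}) (k : ℕ) (Λ : Fin k → Type u) [∀ i, LinearOrder (Λ i)] [∀ i, WellFoundedLT (Λ i)]
    (hΛ : ∀ i, ∀ μ < κ, μ ^ #(Λ i) < κ) : ∃ (Γ : Type u) (_ : LinearOrder Γ) (_ : WellFoundedLT Γ),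
      (∀ μ < κ, μ ^ #Γ < κ) ∧ ∀ p : Γ → Fin k, ∃ i, ∃ h : Λ i → Γ, StrictMono h ∧ ∀ x, p (h x) = i := by
  induction k with
  | zero => exact ⟨PUnit, inferInstance, inferInstance, fun μ hμ => by simpa using hμ, fun p => (p PUnit.unit).elim0⟩
  | succ k ih =>
    obtain ⟨Γ, i1, i2, hΓ, hp⟩ := ih (fun i => Λ i.succ) (fun i => hΛ i.succ)
    refine ⟨Γ ×ₗ Λ 0, inferInstance, inferInstance, ?_, ?_⟩
    · intro μ hμ
      have h1 : #(Γ ×ₗ Λ 0) = #Γ * #(Λ 0) := by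
        change #(Γ × Λ 0) = _
        rw [mk_prod, lift_id, lift_id]
      rw [h1, power_mul]
      exact hΛ 0 _ (hΓ μ hμ)
    · intro p
      by_cases hb : ∃ y, ∀ x, p (toLex (y, x)) = 0
      · obtain ⟨y, hy⟩ := hb
        refine ⟨0, fun x => toLex (y, x), ?_, hy⟩
        intro x x' hx
        exact Prod.Lex.toLex_lt_toLex.2 (Or.inr ⟨rfl, hx⟩)
      · push Not at hb
        choose X hX using hb
        obtain ⟨i, h, hmono, hh⟩ := hp fun y => (p (toLex (y, X y))).pred (hX y)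
        refine ⟨i.succ, fun x => toLex (h x, X (h x)), ?_, ?_⟩
        · intro x x' hx
          exact Prod.Lex.toLex_lt_toLex.2 (Or.inl (hmono hx))
        · intro x
          have h1 := congrArg Fin.succ (hh x)
          rwa [Fin.succ_pred] at h1

/-- The relation with `k + 1` colours. -/
theorem multi {A C Ξ : Type u} [LinearOrder C] [LinearOrder Ξ] [WellFoundedLT Ξ] (κ τ : Cardinal.{u}) (hκ : κ.IsRegular)
    (hκτ : κ ≤ τ) (hA : #A = κ) (hC : ∀ S : Set C, #S ≤ τ → ∃ c, ∀ s ∈ S, s < c) (hpow : ∀ c < κ, κ ^ c ≤ τ) (hΞ : #Ξ ≤ κ)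
    (k : ℕ) (Λ : Fin k → Type u) [∀ i, LinearOrder (Λ i)] [∀ i, WellFoundedLT (Λ i)] (hΛ : ∀ i, ∀ μ < κ, μ ^ #(Λ i) < κ)
    (f : A → C → Fin (k + 1)) :
    (∃ H : Set A, #H = κ ∧ ∃ g : Ξ → C, StrictMono g ∧ ∀ a ∈ H, ∀ x, f a (g x) = 0) ∨
    ∃ i, ∃ H : Set A, #H = κ ∧ ∃ g : Λ i → C, StrictMono g ∧ ∀ a ∈ H, ∀ x, f a (g x) = i.succ := by
  classical
  obtain ⟨Γ, i1, i2, hΓ, hp⟩ := pig κ k Λ hΛ
  rcases core (Ξ := Ξ) (Λ := Γ) κ τ hκ hκτ hA hC hpow hΞ hΓ (fun a c => f a c ≠ 0) with ⟨H, hH, g, hg, hf⟩ | ⟨H, hH, g, hg, hf⟩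
  · exact Or.inl ⟨H, hH, g, hg, fun a ha x => not_not.1 (hf a ha x)⟩
  right
  let φ : H → (Γ → Fin k) := fun a x => (f a (g x)).pred (hf a a.2 x)
  have hcard : #(Γ → Fin k) < κ.ord.cof := by
    rw [hκ.cof_ord, mk_arrow, mk_fin, lift_natCast, lift_id'.{0, u}]
    exact hΓ _ (natCast_lt_aleph0.trans_le hκ.aleph0_le)
  obtain ⟨p, hpc⟩ := infinite_pigeonhole_card φ κ hH.ge hκ.aleph0_le hcard
  obtain ⟨i, h, hmono, hh⟩ := hp p
  refine ⟨i, Subtype.val '' (φ ⁻¹' {p}), ?_, g ∘ h, hg.comp hmono, ?_⟩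
  · refine le_antisymm (hA ▸ mk_set_le _) ?_
    rw [mk_image_eq Subtype.val_injective]
    exact hpc
  · rintro _ ⟨a, ha, rfl⟩ x
    have h1 : φ a (h x) = i := by
      rw [show φ a = p from ha]
      exact hh x
    have h2 := congrArg Fin.succ h1
    change ((f a (g (h x))).pred (hf a a.2 (h x))).succ = i.succ at h2
    rwa [Fin.succ_pred] at h2

/-- Small sets are bounded. -/
theorem bdd (τ : Cardinal.{u}) (hτ : ℵ₀ ≤ τ) (S : Set (Order.succ τ).ord.ToType) (hS : #S ≤ τ) : ∃ c, ∀ s ∈ S, s < c := by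
  by_contra hcon
  push Not at hcon
  have h1 : IsCofinal S := fun c => hcon c
  have h2 := Order.cof_le h1
  rw [Ordinal.cof_toType, (isRegular_succ hτ).cof_ord] at h2
  exact absurd (h2.trans hS) (not_le.2 (Order.lt_succ τ))

/-- **The relation for ordinals.** -/
theorem main (κ : Cardinal.{u}) (hκ : κ.IsRegular) (k : ℕ) (β : Fin (k + 1) → Ordinal.{u}) (h0 : β 0 < (Order.succ κ).ord)
    (hβ : ∀ i, i ≠ 0 → ∀ μ < κ, μ ^ (β i).card < κ) (f : κ.ord.ToType → (Order.succ (κ ^< κ)).ord.ToType → Fin (k + 1)) :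
    ∃ i, ∃ H : Set κ.ord.ToType, #H = κ ∧ ∃ g : (β i).ToType ↪o (Order.succ (κ ^< κ)).ord.ToType,
      ∀ a ∈ H, ∀ x, f a (g x) = i := by
  have h1 : κ ≤ κ ^< κ := by
    have h := le_powerlt (b := κ) κ (c := 1) (one_lt_aleph0.trans_le hκ.aleph0_le)
    rwa [power_one] at h
  have hA : #κ.ord.ToType = κ := by rw [mk_toType, card_ord]
  have hΞ : #(β 0).ToType ≤ κ := by
    rw [mk_toType]
    exact Order.lt_succ_iff.1 (lt_ord.1 h0)
  rcases multi (Ξ := (β 0).ToType) κ (κ ^< κ) hκ h1 hA (fun S hS => bdd _ (hκ.aleph0_le.trans h1) S hS)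
    (fun c hc => le_powerlt κ hc) hΞ k (fun i => (β i.succ).ToType)
    (fun i μ hμ => by rw [mk_toType]; exact hβ _ (Fin.succ_ne_zero i) μ hμ) f with ⟨H, hH, g, hg, hf⟩ | ⟨i, H, hH, g, hg, hf⟩
  · exact ⟨0, H, hH, OrderEmbedding.ofStrictMono g hg, hf⟩
  · exact ⟨i.succ, H, hH, OrderEmbedding.ofStrictMono g hg, hf⟩

end Pool.Agent.Lib.H44P
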